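import Mathlib
import Pool.Agent.Y300.CE.Core

/-!
# Minimal Coulomb energy on the sphere: an explicit second-order lower bound

`E(-1,N) ≥ N²/2 - (2767/5000) N^(3/2)` for all sufficiently large `N`. The conjectured limit of
`(E(-1,N) - N²/2) / N^(3/2)` is `-0.55305...`, and `2767/5000 = 0.5534`.

The proof is a linear programming bound: a test function `f` on `[-1, 1]` with nonnegative Legendre
coefficients and `f(s) ≤ (2 - 2 s)^(-1/2)` gives `2 E(-1,N) ≥ f₀ N² - f(1) N`. The test function is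
`(2 (x - s))^(-1/2) B(σ² / (2 (x - s)))` with `x = √(1 + σ²)`, `σ = 6/√N` and a polynomial `B` of
degree 14 found by linear programming.
-/

set_option autoImplicit false

namespace Pool.Agent.Results.MP_6f8d6f_an.LowerBound

open Pool.Agent.Helper858.Core (gr)

/-- The Coulomb energy `∑_{i<j} 1 / |x_i - x_j|`. -/
noncomputable def energy {N : ℕ} (x : Fin N → EuclideanSpace ℝ (Fin 3)) : ℝ :=
  ∑ i, ∑ j ∈ Finset.Ioi i, 1 / ‖x i - x j‖

/-- The minimal Coulomb energy `E(-1,N)`: the infimum of the energies of `N` distinct points of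
the unit sphere. -/
noncomputable def E (N : ℕ) : ℝ :=
  sInf {e : ℝ | ∃ x : Fin N → EuclideanSpace ℝ (Fin 3), Function.Injective x ∧ (∀ i, ‖x i‖ = 1) ∧
    e = energy x}

/-- `N` distinct points of the sphere -/
lemma exists_config (N : ℕ) : ∃ x : Fin N → EuclideanSpace ℝ (Fin 3), Function.Injective x ∧
    ∀ i, ‖x i‖ = 1 := by
  refine ⟨fun i => !₂[((i : ℕ) : ℝ) / N, Real.sqrt (1 - (((i : ℕ) : ℝ) / N) ^ 2), 0], ?_, ?_⟩
  · intro i j hij
    have hN : (0 : ℝ) < N := by
      have := i.pos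
      exact_mod_cast this
    have h := congrArg (fun v : EuclideanSpace ℝ (Fin 3) => v 0) hij
    simp at h
    rw [div_left_inj' hN.ne'] at h
    exact Fin.ext (by exact_mod_cast h)
  · intro i
    have hN : (0 : ℝ) < N := by
      have := i.pos
      exact_mod_cast this
    have h1 : ((i : ℕ) : ℝ) / N ≤ 1 := by
      rw [div_le_one hN]
      exact_mod_cast i.isLt.le
    have h0 : 0 ≤ ((i : ℕ) : ℝ) / N := by positivity
    have h2 : 0 ≤ 1 - (((i : ℕ) : ℝ) / N) ^ 2 := by nlinarith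
    rw [EuclideanSpace.norm_eq, Real.sqrt_eq_one, Fin.sum_univ_three]
    simp only [Real.norm_eq_abs, sq_abs]
    simp
    rw [Real.sq_sqrt (by simpa using h2)]
    ring

lemma energy_double {N : ℕ} (x : Fin N → EuclideanSpace ℝ (Fin 3)) :
    2 * energy x = ∑ i, ∑ j, if i = j then 0 else 1 / ‖x i - x j‖ := by
  have h1 : energy x = ∑ i, ∑ j, if i < j then 1 / ‖x i - x j‖ else 0 := by
    unfold energy
    refine Finset.sum_congr rfl fun i _ => ?_
    rw [← Finset.sum_filter]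
    refine Finset.sum_congr ?_ fun _ _ => rfl
    ext j; simp
  have h2 : energy x = ∑ i, ∑ j, if j < i then 1 / ‖x i - x j‖ else 0 := by
    rw [h1, Finset.sum_comm]
    refine Finset.sum_congr rfl fun i _ => Finset.sum_congr rfl fun j _ => ?_
    rw [norm_sub_rev]
  have h3 : 2 * energy x = energy x + energy x := by ring
  rw [h3]
  nth_rewrite 1 [h1]
  rw [h2, ← Finset.sum_add_distrib]
  refine Finset.sum_congr rfl fun i _ => ?_
  rw [← Finset.sum_add_distrib]
  refine Finset.sum_congr rfl fun j _ => ?_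
  rcases lt_trichotomy i j with h | h | h
  · simp [h, h.ne, h.not_gt]
  · subst h; simp
  · simp [h, h.ne', h.not_gt]

lemma norm_eq_gr {N : ℕ} (x : Fin N → EuclideanSpace ℝ (Fin 3)) (hx : ∀ i, ‖x i‖ = 1) (i j : Fin N) :
    ‖x i - x j‖ ^ 2 = 2 * (1 - gr (fun i m => x i m) i j) := by
  have h := norm_sub_sq_real (x i) (x j)
  rw [h, hx i, hx j]
  have e : inner ℝ (x i) (x j) = gr (fun i m => x i m) i j := by
    unfold gr
    rw [PiLp.inner_apply]
    refine Finset.sum_congr rfl fun m _ => ?_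
    simp [mul_comm]
  rw [e]; ring

/-- `E(-1,N) ≥ N²/2 - (2767/5000) N^(3/2)` for all sufficiently large `N`. -/
theorem result : ∃ N₀ : ℕ, ∀ N : ℕ, N₀ ≤ N →
    (N : ℝ) ^ 2 / 2 - 2767 / 5000 * (N : ℝ) ^ (3 / 2 : ℝ) ≤ E N := by
  obtain ⟨N₀, h⟩ := Pool.Agent.Y300.CE.Core.core
  refine ⟨N₀, fun N hN => ?_⟩
  obtain ⟨hN0, h⟩ := h N hN
  obtain ⟨x0, hx0, hx0'⟩ := exists_config N
  refine le_csInf ⟨_, x0, hx0, hx0', rfl⟩ ?_
  rintro e ⟨x, hinj, hx, rfl⟩
  have hpow : (N : ℝ) ^ (3 / 2 : ℝ) = (N : ℝ) * Real.sqrt N := by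
    have hNpos : (0 : ℝ) < N := by exact_mod_cast hN0
    rw [Real.sqrt_eq_rpow]
    nth_rewrite 2 [← Real.rpow_one (N : ℝ)]
    rw [← Real.rpow_add hNpos]
    norm_num
  have h1 : ∀ j, ∑ m, (fun i m => x i m : Fin N → Fin 3 → ℝ) j m ^ 2 = 1 := by
    intro j
    have := hx j
    rw [EuclideanSpace.norm_eq, Real.sqrt_eq_one] at this
    simpa [Real.norm_eq_abs, sq_abs] using this
  have h2 : ∀ i j, i ≠ j → gr (fun i m => x i m : Fin N → Fin 3 → ℝ) i j < 1 := by
    intro i j hij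
    have h3 := norm_eq_gr x hx i j
    have h4 : 0 < ‖x i - x j‖ := by
      rw [norm_pos_iff, sub_ne_zero]
      exact fun h => hij (hinj h)
    have h5 : 0 < ‖x i - x j‖ ^ 2 := by positivity
    linarith
  have h3 := h (fun i m => x i m) h1 h2
  have h4 : ∑ i, ∑ j, (if i = j then 0 else
      (Real.sqrt (2 * (1 - gr (fun i m => x i m : Fin N → Fin 3 → ℝ) i j)))⁻¹) = 2 * energy x := by
    rw [energy_double]
    refine Finset.sum_congr rfl fun i _ => Finset.sum_congr rfl fun j _ => ?_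
    rw [← norm_eq_gr x hx, Real.sqrt_sq (norm_nonneg _), one_div]
  rw [h4] at h3
  rw [hpow]
  linarith

end Pool.Agent.Results.MP_6f8d6f_an.LowerBound
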